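import Pool.Agent.V5helper38.EP.Stm

set_option autoImplicit false

/-!
# Project EP, job CMP: the reduction is computable
-/

namespace Pool.Agent.V5helper9.EP

open Pool.Agent.V5helper38.EP
open Pool.Agent.Helper707.Flat (Ins)

theorem val_primrec (k K : ℕ) : Primrec (fun x : ℕ => code (val (k := k) K 0 x)) := by
  have h : (fun x : ℕ => code (val (k := k) K 0 x)) =
      Nat.rec (code (val (k := k) K 0 0)) (fun _ l =>
        2 :: (code (see (k := k) 0) ++ (5 :: (code (alpha (k := k) K) ++ l)))) := by
    funext x
    induction x with
    | zero => rfl
    | succ x ih =>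
      show code (Fm.and (see 0) (.ann (alpha K) (val K 0 x))) = _
      simp only [code]
      rw [← ih]
  rw [h]
  refine Primrec.nat_rec₁ _ ?_
  refine Primrec.list_cons.comp (Primrec.const 2) (Primrec.list_append.comp (Primrec.const _)
    (Primrec.list_cons.comp (Primrec.const 5) (Primrec.list_append.comp (Primrec.const _)
      Primrec.snd)))

theorem t_CMP : S_CMP := by
  intro k K P
  refine Primrec.to_comp ?_
  have hv := val_primrec k K
  simp only [phi, conj, C, imp, code]
  repeat first
    | exact Primrec.const _
    | exact hv
    | refine Primrec.list_cons.comp (Primrec.const _) ?_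
    | refine Primrec.list_append.comp ?_ ?_

end Pool.Agent.V5helper9.EP
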