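import Pool.Agent.V5helper38.EP.Stm

set_option autoImplicit false

/-!
# Project EP, job INJ: unique readability
-/

namespace Pool.Agent.V5helper9.EP

open Pool.Agent.V5helper38.EP

theorem set_inj {k : ℕ} {G H : Finset (Fin k)} (h : ∑ a ∈ G, 2 ^ a.1 = ∑ a ∈ H, 2 ^ a.1) :
    G = H := by
  have h1 : (fun s : Finset ℕ => ∑ i ∈ s, 2 ^ i) (G.map Fin.valEmbedding) =
      (fun s : Finset ℕ => ∑ i ∈ s, 2 ^ i) (H.map Fin.valEmbedding) := by
    simpa [Finset.sum_map] using h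
  exact Finset.map_injective _ (Finset.geomSum_injective le_rfl h1)

theorem read {k : ℕ} : ∀ (φ ψ : Fm (Fin k)) (s t : List ℕ), code φ ++ s = code ψ ++ t →
    φ = ψ ∧ s = t := by
  intro φ
  induction φ with
  | atom p =>
    intro ψ s t h
    cases ψ <;> simp [code] at h ⊢
    exact h
  | neg φ ih =>
    intro ψ s t h
    cases ψ <;> simp [code] at h ⊢
    exact ih _ _ _ h
  | and φ φ' ih ih' =>
    intro ψ s t h
    cases ψ <;> simp [code] at h ⊢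
    obtain ⟨h1, h2⟩ := ih _ _ _ h
    obtain ⟨h3, h4⟩ := ih' _ _ _ h2
    exact ⟨⟨h1, h3⟩, h4⟩
  | know a φ ih =>
    intro ψ s t h
    cases ψ <;> simp [code] at h ⊢
    obtain ⟨h1, h2⟩ := ih _ _ _ h.2
    exact ⟨⟨Fin.ext h.1, h1⟩, h2⟩
  | common G hG φ ih =>
    intro ψ s t h
    cases ψ <;> simp [code] at h ⊢
    obtain ⟨h1, h2⟩ := ih _ _ _ h.2
    exact ⟨⟨set_inj h.1, h1⟩, h2⟩
  | ann φ φ' ih ih' =>
    intro ψ s t h
    cases ψ <;> simp [code] at h ⊢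
    obtain ⟨h1, h2⟩ := ih _ _ _ h
    obtain ⟨h3, h4⟩ := ih' _ _ _ h2
    exact ⟨⟨h1, h3⟩, h4⟩
  | iter φ φ' ih ih' =>
    intro ψ s t h
    cases ψ <;> simp [code] at h ⊢
    obtain ⟨h1, h2⟩ := ih _ _ _ h
    obtain ⟨h3, h4⟩ := ih' _ _ _ h2
    exact ⟨⟨h1, h3⟩, h4⟩

theorem t_INJ : S_INJ := by
  intro k φ ψ h
  exact (read φ ψ [] [] (by rw [List.append_nil, List.append_nil]; exact h)).1

end Pool.Agent.V5helper9.EP
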